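import Pool.Agent.Helper87.MX.Fr
import Pool.Agent.Helper17.GH.Gap

/-! MixingRates (MP_81910f_an): mixing of order four of one character gives an atom. -/

set_option autoImplicit false

open MeasureTheory Finset Filter

namespace Pool.Agent.Helper18.MX

open Pool.Agent.Helper87.MX
open Pool.Agent.Helper25.MX (psi psi_summable summable_ent psi_nonneg)

theorem cf_mul {g : ℕ} {μ : Measure Tor} (h : Inv g μ) (n : ℤ) : cf μ (g * n) = cf μ n := by
  unfold cf
  have h1 : ∫ x, (fourier n ((g : ℕ) • x) : ℂ) ∂μ = ∫ x, (fourier n x : ℂ) ∂μ := by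
    have h2 := h.map_eq
    have h3 : ∫ x, (fourier n x : ℂ) ∂μ =
        ∫ x, (fourier n x : ℂ) ∂(Measure.map (fun x : Tor => g • x) μ) := by rw [h2]
    rw [h3, integral_map h.measurable.aemeasurable
      ((fourier n).continuous.aestronglyMeasurable)]
  rw [← h1]
  refine integral_congr_ae (Eventually.of_forall fun x => ?_)
  change (fourier ((g : ℤ) * n) x : ℂ) = fourier n (g • x)
  rw [fourier_apply, fourier_apply]
  congr 2
  rw [← natCast_zsmul, smul_smul, mul_comm]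

theorem cf_pow_mul {g : ℕ} {μ : Measure Tor} (h : Inv g μ) (l : ℕ) (n : ℤ) :
    cf μ ((g : ℤ) ^ l * n) = cf μ n := by
  induction l with
  | zero => simp
  | succ l ih => rw [pow_succ', mul_assoc, cf_mul h, ih]

/-- the growth of the entropy is small only if there are atoms -/
theorem atoms_of_bound (μ : Measure Tor) [IsProbabilityMeasure μ] (h2 : Inv 2 μ) (h3 : Inv 3 μ)
    (κ : ℕ → ℝ) (h0 : ∀ j, 0 ≤ κ j) (h1 : ∀ j, κ j ≤ 1) (hs : Summable κ) (C : ℝ)
    (h : ∀ K, ent μ K ≤ C + ∑ j ∈ range K, psi (κ j)) : ∃ x, μ {x} ≠ 0 := by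
  by_contra hcon
  push Not at hcon
  refine Helper17.GH.not_summable_ent (ν := μ) h2 h3 hcon ?_
  have hse : Summable fun i : ℕ => κ (2 * i) :=
    hs.comp_injective (fun a b hab => by simpa using hab)
  have hso : Summable fun i : ℕ => κ (2 * i + 1) :=
    hs.comp_injective (fun a b hab => by simpa using hab)
  have hent0 : ∀ K, 0 ≤ ent μ K := fun K => Finset.sum_nonneg fun i _ =>
    Real.negMulLog_nonneg measureReal_nonneg measureReal_le_one
  have hmono : ∀ {K L : ℕ}, K ≤ L → ∑ j ∈ range K, psi (κ j) ≤ ∑ j ∈ range L, psi (κ j) :=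
    fun {K L} hKL => Finset.sum_le_sum_of_subset_of_nonneg (range_mono hKL)
      fun i _ _ => psi_nonneg (h0 i) (h1 i)
  have h5 : ∀ J : ℕ, ∑ j ∈ range (2 * J), psi (κ j) =
      ∑ i ∈ range J, (psi (κ (2 * i)) + psi (κ (2 * i + 1))) := by
    intro J
    induction J with
    | zero => simp
    | succ J ih =>
      rw [mul_add, mul_one, Finset.sum_range_succ, Finset.sum_range_succ, ih,
        Finset.sum_range_succ]
      ring
  have key := summable_ent (a := fun i => psi (κ (2 * i)) + psi (κ (2 * i + 1))) (H := ent μ)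
    (C := C) (fun j => add_nonneg (psi_nonneg (h0 _) (h1 _)) (psi_nonneg (h0 _) (h1 _))) hent0
    (fun K J hKJ => (h K).trans (by
      have := hmono hKJ
      rw [h5 J] at this
      linarith))
    (by
      have e1 := psi_summable (fun i => h0 (2 * i)) (fun i => h1 (2 * i)) hse
      have e2 := psi_summable (fun i => h0 (2 * i + 1)) (fun i => h1 (2 * i + 1)) hso
      refine (e1.add e2).congr fun j => ?_
      rw [← add_div])
  exact key

theorem common_index {g k : ℕ} {c : ℂ} {F : Fin 3 → Finset ℕ} {x y : Tor}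
    (hx : x ∈ good3 g k c F) (hy : y ∈ good3 g k c F) :
    ∃ i, ‖rav g k (F i) x - c‖ < ‖c‖ / 2 ∧ ‖rav g k (F i) y - c‖ < ‖c‖ / 2 := by
  obtain ⟨i, j, hij, hi, hj⟩ := hx
  obtain ⟨i', j', hij', hi', hj'⟩ := hy
  by_cases h1 : i' = i
  · subst h1; exact ⟨i', hi, hi'⟩
  by_cases h2 : i' = j
  · subst h2; exact ⟨i', hj, hi'⟩
  by_cases h3 : j' = i
  · subst h3; exact ⟨j', hi, hj'⟩
  by_cases h4 : j' = j
  · subst h4; exact ⟨j', hj, hj'⟩
  · exfalso
    have e1 := i.2
    have e2 := j.2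
    have e3 := i'.2
    have e4 := j'.2
    simp only [ne_eq, Fin.ext_iff] at h1 h2 h3 h4 hij hij'
    omega

theorem arc_zero : arc 0 0 = Set.univ := by
  ext x
  refine ⟨fun _ => trivial, fun _ => ?_⟩
  obtain ⟨t, ht, hx⟩ := AddCircle.eq_coe_Ico (p := (1 : ℝ)) x
  exact ⟨t, by simpa using ht, hx⟩

theorem arc3_zero : arc3 0 0 = Set.univ := by
  ext x
  refine ⟨fun _ => trivial, fun _ => ?_⟩
  obtain ⟨t, ht, hx⟩ := AddCircle.eq_coe_Ico (p := (1 : ℝ)) x
  exact ⟨t, by simpa using ht, hx⟩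

theorem mix_reduce {μ : Measure Tor} {q g k' l : ℕ} (h : Inv q μ)
    (hmix : Mix4 (cf μ) g (q ^ l * k')) : Mix4 (cf μ) g k' := by
  obtain ⟨ρ, γ, h1, h2, h3, h4⟩ := hmix
  refine ⟨ρ, γ, h1, h2, h3, ?_⟩
  intro b₁ b₂ b₃ b₄ D e₁ e₂ e₃ e₄ he1 he2 he3 he4 c1 c2 c3 c4 c5 c6
  have h5 := h4 b₁ b₂ b₃ b₄ D e₁ e₂ e₃ e₄ he1 he2 he3 he4 c1 c2 c3 c4 c5 c6
  have e : ∀ n : ℤ, cf μ (((q ^ l * k' : ℕ) : ℤ) * n) = cf μ ((k' : ℤ) * n) := by
    intro n
    rw [← cf_pow_mul h l ((k' : ℤ) * n)]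
    congr 1
    push_cast
    ring
  rw [e, e, e] at h5
  exact h5

/-- the scales: a summable sequence read at the scales `j / s - M` -/
theorem shifted {κ : ℕ → ℝ} (h : ∀ N, 0 ≤ κ N ∧ κ N ≤ 1) (hs : Summable κ) (M : ℕ) :
    ∃ κ' : ℕ → ℝ, (∀ j, 0 ≤ κ' j) ∧ (∀ j, κ' j ≤ 1) ∧ Summable κ' ∧
      (∀ j, j < 2 * M → κ' j = 1) ∧ ∀ j, 2 * M ≤ j → κ' j = κ (j / 2 - M) := by
  refine ⟨fun j => if j < 2 * M then 1 else κ (j / 2 - M), ?_, ?_, ?_, ?_, ?_⟩
  · intro j
    dsimp only
    split_ifs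
    · norm_num
    · exact (h _).1
  · intro j
    dsimp only
    split_ifs
    · exact le_rfl
    · exact (h _).2
  · rw [← summable_nat_add_iff (2 * M)]
    have h1 : (fun j => if j + 2 * M < 2 * M then (1 : ℝ) else κ ((j + 2 * M) / 2 - M)) =
        fun j => κ (j / 2) := by
      funext j
      rw [if_neg (by omega)]
      congr 1
      omega
    rw [h1]
    have hE : Summable fun i : ℕ => κ ((2 * i) / 2) := by
      refine hs.congr fun i => ?_
      congr 1
      omega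
    have hO : Summable fun i : ℕ => κ ((2 * i + 1) / 2) := by
      refine hs.congr fun i => ?_
      congr 1
      omega
    exact (Summable.even_add_odd (f := fun j => κ (j / 2)) hE hO)
  · intro j hj
    exact if_pos hj
  · intro j hj
    exact if_neg (by omega)

theorem le_psi {v : ℝ} (h0 : 0 ≤ v) : v * (1 + Real.log 2) + Real.negMulLog v ≤ psi v := by
  unfold psi
  have h8 : Real.log 8 = 3 * Real.log 2 := by
    rw [show (8 : ℝ) = 2 ^ 3 by norm_num, Real.log_pow]
    norm_num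
  have h2 : 0 < Real.log 2 := Real.log_pos (by norm_num)
  rw [h8]
  have : v * (1 + Real.log 2) ≤ v * (8 + 3 * Real.log 2) :=
    mul_le_mul_of_nonneg_left (by linarith) h0
  linarith

theorem exists_M (g k : ℕ) (hg : 2 ≤ g) {c : ℂ} (hc : c ≠ 0) :
    ∃ M : ℕ, Real.pi * k ≤ ‖c‖ * g ^ M := by
  have h1 : 0 < ‖c‖ := norm_pos_iff.2 hc
  obtain ⟨M, hM⟩ := pow_unbounded_of_one_lt (Real.pi * k / ‖c‖) (y := (g : ℝ))
    (by exact_mod_cast hg)
  refine ⟨M, ?_⟩
  rw [div_lt_iff₀ h1] at hM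
  linarith

theorem pow_bound {g q k M j b : ℕ} (hg : 2 ≤ g) (hq : g ^ (j / 2) ≤ q ^ j) {c : ℂ}
    (hM : Real.pi * k ≤ ‖c‖ * g ^ M) (hj : 2 * M ≤ j) (hb : b ≤ j / 2 - M) :
    Real.pi * k * g ^ b ≤ ‖c‖ * q ^ j := by
  have hg1 : (1 : ℝ) ≤ g := by exact_mod_cast (by omega : 1 ≤ g)
  calc Real.pi * k * (g : ℝ) ^ b ≤ ‖c‖ * g ^ M * (g : ℝ) ^ (j / 2 - M) := by
        refine mul_le_mul hM (pow_le_pow_right₀ hg1 hb) (by positivity) (by positivity)
    _ = ‖c‖ * (g : ℝ) ^ (j / 2) := by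
        rw [mul_assoc, ← pow_add]
        congr 2
        omega
    _ ≤ ‖c‖ * (q : ℝ) ^ j := by
        refine mul_le_mul_of_nonneg_left ?_ (norm_nonneg _)
        exact_mod_cast hq

theorem s_CM (hE2 : S_E2) (hE3 : S_E3) (hE4 : S_E4) (hS2 : S_S2) (hS3 : S_S3) (hBL : S_BL) :
    S_CM := by
  intro μ hμ h2 h3 g k hg hk hc hmix
  rcases hg with rfl | rfl
  · -- g = 2, triadic arcs
    obtain ⟨l, k', hk', hkk⟩ := Nat.exists_eq_pow_mul_and_not_dvd (n := k) (by omega) 3 (by norm_num)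
    subst hkk
    have hmix' := mix_reduce h3 hmix
    have hc' : cf μ (k' : ℤ) ≠ 0 := by
      rw [← cf_pow_mul h3 l (k' : ℤ)]
      have e : ((3 : ℕ) : ℤ) ^ l * (k' : ℤ) = ((3 ^ l * k' : ℕ) : ℤ) := by push_cast; ring
      rw [e]
      exact hc
    obtain ⟨F, κ, hκs, hκ, hF, hgood⟩ := hBL μ hμ 2 k' le_rfl h2 hc' hmix'
    obtain ⟨M, hM⟩ := exists_M 2 k' le_rfl hc'
    obtain ⟨κ', h0', h1', hs', hsmall, hlarge⟩ := shifted hκ hκs M
    refine atoms_of_bound μ h2 h3 κ' h0' h1' hs' (Real.log 2) fun K => ?_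
    have hstep : ∀ j, ent3 μ (j + 1) ≤ ent3 μ j + psi (κ' j) := by
      intro j
      have h5 : ∃ G : Set Tor, Sep3 j G ∧ μ.real Gᶜ ≤ κ' j := by
        by_cases hj : j < 2 * M
        · refine ⟨∅, fun i _ => ⟨0, by norm_num, fun l' _ _ x _ hx => hx⟩, ?_⟩
          rw [hsmall j hj]
          exact measureReal_le_one
        · push Not at hj
          refine ⟨good3 2 k' (cf μ k') (F (j / 2 - M)), ?_, ?_⟩
          · refine hS3 k' j (cf μ k') _ hk' hc' fun x hx y hy => ?_
            obtain ⟨i, hi1, hi2⟩ := common_index hx hy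
            refine ⟨F (j / 2 - M) i, fun b hb => ⟨(hF _ i b hb).2, ?_⟩, hi1, hi2⟩
            exact_mod_cast pow_bound (g := 2) (q := 3) le_rfl
              ((Nat.pow_le_pow_right (by norm_num) (Nat.div_le_self j 2)).trans
                (Nat.pow_le_pow_left (by norm_num) j)) hM hj (hF _ i b hb).1
          · rw [hlarge j hj]
            exact hgood _
      obtain ⟨G, hG1, hG2⟩ := h5
      have h6 := hE3 μ hμ h3 j G (κ' j) hG1 hG2 (h1' j)
      have h7 := le_psi (h0' j)
      linarith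
    have h8 : ∀ K, ent3 μ K ≤ ∑ j ∈ range K, psi (κ' j) := by
      intro K
      induction K with
      | zero =>
        unfold ent3
        simp [arc3_zero]
      | succ K ih =>
        rw [Finset.sum_range_succ]
        exact (hstep K).trans (by linarith)
    have h9 := hE4 μ hμ K K (Nat.pow_le_pow_left (by norm_num) K)
    linarith [h8 K]
  · -- g = 3, dyadic arcs
    obtain ⟨l, k', hk', hkk⟩ := Nat.exists_eq_pow_mul_and_not_dvd (n := k) (by omega) 2 (by norm_num)
    subst hkk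
    have hodd : Odd k' := Nat.not_even_iff_odd.1 fun h => hk' (even_iff_two_dvd.1 h)
    have hmix' := mix_reduce h2 hmix
    have hc' : cf μ (k' : ℤ) ≠ 0 := by
      rw [← cf_pow_mul h2 l (k' : ℤ)]
      have e : ((2 : ℕ) : ℤ) ^ l * (k' : ℤ) = ((2 ^ l * k' : ℕ) : ℤ) := by push_cast; ring
      rw [e]
      exact hc
    obtain ⟨F, κ, hκs, hκ, hF, hgood⟩ := hBL μ hμ 3 k' (by norm_num) h3 hc' hmix'
    obtain ⟨M, hM⟩ := exists_M 3 k' (by norm_num) hc'
    obtain ⟨κ', h0', h1', hs', hsmall, hlarge⟩ := shifted hκ hκs M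
    refine atoms_of_bound μ h2 h3 κ' h0' h1' hs' 0 fun K => ?_
    have hstep : ∀ j, ent μ (j + 1) ≤ ent μ j + psi (κ' j) := by
      intro j
      have h5 : ∃ G : Set Tor, Sep2 j G ∧ μ.real Gᶜ ≤ κ' j := by
        by_cases hj : j < 2 * M
        · refine ⟨∅, fun i _ => Or.inl fun x _ hx => hx, ?_⟩
          rw [hsmall j hj]
          exact measureReal_le_one
        · push Not at hj
          refine ⟨good3 3 k' (cf μ k') (F (j / 2 - M)), ?_, ?_⟩
          · refine hS2 k' j (cf μ k') _ hodd hc' fun x hx y hy => ?_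
            obtain ⟨i, hi1, hi2⟩ := common_index hx hy
            refine ⟨F (j / 2 - M) i, fun b hb => ?_, hi1, hi2⟩
            have hpow : 3 ^ (j / 2) ≤ 2 ^ j := by
              calc 3 ^ (j / 2) ≤ 4 ^ (j / 2) := Nat.pow_le_pow_left (by norm_num) _
                _ = 2 ^ (2 * (j / 2)) := by rw [pow_mul]; norm_num
                _ ≤ 2 ^ j := Nat.pow_le_pow_right (by norm_num) (by omega)
            exact_mod_cast pow_bound (g := 3) (q := 2) (by norm_num) hpow hM hj (hF _ i b hb).1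
          · rw [hlarge j hj]
            exact hgood _
      obtain ⟨G, hG1, hG2⟩ := h5
      have h6 := hE2 μ hμ h2 j G (κ' j) hG1 hG2 (h1' j)
      have h7 := le_psi (h0' j)
      have h8 : κ' j ≤ κ' j * (1 + Real.log 2) := by
        have : 0 < Real.log 2 := Real.log_pos (by norm_num)
        nlinarith [h0' j]
      linarith
    have h8 : ∀ K, ent μ K ≤ ∑ j ∈ range K, psi (κ' j) := by
      intro K
      induction K with
      | zero =>
        unfold ent
        simp [arc_zero]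
      | succ K ih =>
        rw [Finset.sum_range_succ]
        exact (hstep K).trans (by linarith)
    linarith [h8 K]

end Pool.Agent.Helper18.MX
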