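import Pool.Agent.Helper18.MX.CM
import Pool.Agent.Helper87.MX.Fr5
import Pool.Agent.Helper82.MX.E2
import Pool.Agent.Helper48.MX.E3
import Pool.Agent.Helper69.MX.E4
import Pool.Agent.Helper43.MX.S2
import Pool.Agent.Helper62.MX.S3

/-! MixingRates (MP_81910f_an): blocks that are given, for any invariant measure. -/

set_option autoImplicit false

open MeasureTheory Finset Filter

namespace Pool.Agent.Helper18.MX

open Pool.Agent.Helper87.MX
open Pool.Agent.Helper25.MX (psi psi_summable summable_ent psi_nonneg)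

theorem s_DC' (hE2 : S_E2) (hE3 : S_E3) (hE4 : S_E4) (hS2 : S_S2) (hS3 : S_S3) : S_DC := by
  intro μ hμ h2 h3 g c hg hc F κ hκs hκ hF hgood
  rcases hg with rfl | rfl
  · -- g = 2, triadic arcs
    obtain ⟨M, hM⟩ := exists_M 2 1 le_rfl hc
    obtain ⟨κ', h0', h1', hs', hsmall, hlarge⟩ := shifted hκ hκs M
    refine atoms_of_bound μ h2 h3 κ' h0' h1' hs' (Real.log 2) fun K => ?_
    have hstep : ∀ j, ent3 μ (j + 1) ≤ ent3 μ j + psi (κ' j) := by
      intro j
      have h5 : ∃ G : Set Tor, Sep3 j G ∧ μ.real Gᶜ ≤ κ' j := by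
        by_cases hj : j < 2 * M
        · refine ⟨∅, fun i _ => ⟨0, by norm_num, fun l' _ _ x _ hx => hx⟩, ?_⟩
          rw [hsmall j hj]
          exact measureReal_le_one
        · push Not at hj
          refine ⟨good3 2 1 c (F (j / 2 - M)), ?_, ?_⟩
          · refine hS3 1 j c _ (by norm_num) hc fun x hx y hy => ?_
            obtain ⟨i, hi1, hi2⟩ := common_index hx hy
            refine ⟨F (j / 2 - M) i, fun b hb => ⟨(hF _ i b hb).2, ?_⟩, hi1, hi2⟩
            exact_mod_cast pow_bound (g := 2) (q := 3) (k := 1) le_rfl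
              ((Nat.pow_le_pow_right (by norm_num) (Nat.div_le_self j 2)).trans
                (Nat.pow_le_pow_left (by norm_num) j)) hM hj (hF _ i b hb).1
          · rw [hlarge j hj]
            exact hgood _
      obtain ⟨G, hG1, hG2⟩ := h5
      have h6 := hE3 μ hμ h3 j G (κ' j) hG1 hG2 (h1' j)
      have h7 := le_psi (h0' j)
      linarith
    have h8 : ∀ K, ent3 μ K ≤ ∑ j ∈ range K, psi (κ' j) := by
      intro K
      induction K with
      | zero =>
        unfold ent3
        simp [arc3_zero]
      | succ K ih =>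
        rw [Finset.sum_range_succ]
        exact (hstep K).trans (by linarith)
    have h9 := hE4 μ hμ K K (Nat.pow_le_pow_left (by norm_num) K)
    linarith [h8 K]
  · -- g = 3, dyadic arcs
    obtain ⟨M, hM⟩ := exists_M 3 1 (by norm_num) hc
    obtain ⟨κ', h0', h1', hs', hsmall, hlarge⟩ := shifted hκ hκs M
    refine atoms_of_bound μ h2 h3 κ' h0' h1' hs' 0 fun K => ?_
    have hstep : ∀ j, ent μ (j + 1) ≤ ent μ j + psi (κ' j) := by
      intro j
      have h5 : ∃ G : Set Tor, Sep2 j G ∧ μ.real Gᶜ ≤ κ' j := by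
        by_cases hj : j < 2 * M
        · refine ⟨∅, fun i _ => Or.inl fun x _ hx => hx, ?_⟩
          rw [hsmall j hj]
          exact measureReal_le_one
        · push Not at hj
          refine ⟨good3 3 1 c (F (j / 2 - M)), ?_, ?_⟩
          · refine hS2 1 j c _ odd_one hc fun x hx y hy => ?_
            obtain ⟨i, hi1, hi2⟩ := common_index hx hy
            refine ⟨F (j / 2 - M) i, fun b hb => ?_, hi1, hi2⟩
            have hpow : 3 ^ (j / 2) ≤ 2 ^ j := by
              calc 3 ^ (j / 2) ≤ 4 ^ (j / 2) := Nat.pow_le_pow_left (by norm_num) _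
                _ = 2 ^ (2 * (j / 2)) := by rw [pow_mul]; norm_num
                _ ≤ 2 ^ j := Nat.pow_le_pow_right (by norm_num) (by omega)
            exact_mod_cast pow_bound (g := 3) (q := 2) (k := 1) (by norm_num) hpow hM hj
              (hF _ i b hb).1
          · rw [hlarge j hj]
            exact hgood _
      obtain ⟨G, hG1, hG2⟩ := h5
      have h6 := hE2 μ hμ h2 j G (κ' j) hG1 hG2 (h1' j)
      have h7 := le_psi (h0' j)
      have h8 : κ' j ≤ κ' j * (1 + Real.log 2) := by
        have : 0 < Real.log 2 := Real.log_pos (by norm_num)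
        nlinarith [h0' j]
      linarith
    have h8 : ∀ K, ent μ K ≤ ∑ j ∈ range K, psi (κ' j) := by
      intro K
      induction K with
      | zero =>
        unfold ent
        simp [arc_zero]
      | succ K ih =>
        rw [Finset.sum_range_succ]
        exact (hstep K).trans (by linarith)
    linarith [h8 K]

theorem s_DC : S_DC :=
  s_DC' Helper82.MX.s_E2 Helper48.MX.s_E3 Helper69.MX.s_E4 Helper43.MX.s_S2 Helper62.MX.s_S3

end Pool.Agent.Helper18.MX
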